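import Mathlib
import Pool.Agent.Y202.JR.Side

set_option autoImplicit false

/-!
# Minimal systems on one space without joint recurrence, for all polynomials at once

For every countable family of integer sequences, each of them a polynomial of degree at least two or
a sequence whose differences tend to infinity or to minus infinity, there are minimal homeomorphisms
`T i` of one compact metric space, one for each sequence, such that for no two different indices
there is a jointly recurrent point. The failure is uniform in the point.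
-/

namespace Pool.Agent.Results.MP_c19a8f_an.UniversalSystems

open Filter Topology Pool.Agent.H317R3 Pool.Agent.Y202.JR

/-- The system `(X, T)` is minimal: the orbit `{T^n x : n ∈ ℤ}` of every point `x` is dense. -/
def IsMinimal {X : Type} [TopologicalSpace X] (T : X ≃ₜ X) : Prop :=
  ∀ x : X, Dense (Set.range fun n : ℤ => (T ^ n) x)

/-- The point `x` is `(a, b)`-jointly recurrent for `(T, S)`: there are integers `n i → ∞` with
`T^{a(n i)} x → x` and `S^{b(n i)} x → x`. -/
def JointlyRecurrent {X : Type} [TopologicalSpace X] (a b : ℤ → ℤ) (T S : X ≃ₜ X) (x : X) : Prop :=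
  ∃ n : ℕ → ℤ, Tendsto n atTop atTop ∧
    Tendsto (fun i => (T ^ (a (n i))) x) atTop (𝓝 x) ∧
    Tendsto (fun i => (S ^ (b (n i))) x) atTop (𝓝 x)

/-- The sequence `a` is given by an integer polynomial of degree at least two, or its differences
`a (n + 1) - a n` tend to `∞` or to `-∞` as `n → ∞`. -/
def Admissible (a : ℤ → ℤ) : Prop :=
  (∃ p : Polynomial ℤ, 2 ≤ p.natDegree ∧ ∀ n, a n = p.eval n) ∨
  Tendsto (fun n : ℤ => a (n + 1) - a n) atTop atTop ∨
  Tendsto (fun n : ℤ => a (n + 1) - a n) atTop atBot

lemma side (a : ℤ → ℤ) (ha : Admissible a) : ∃ M : ℕ,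
    ∃ (T : XX ≃ₜ XX) (f : XX → Bool), Continuous f ∧
      (∀ x, Dense (Set.range fun n : ℤ => (T ^ n) x)) ∧
      ∀ (x : XX) (i : ℕ), f ((T ^ (a ((M + i : ℕ) : ℤ))) x) = f x ↔ x.1 i = true := by
  have h : Gap a ∨ Gap (fun n => -a n) := by
    rcases ha with ⟨p, hp, hpa⟩ | h | h
    · have ea : a = fun n => p.eval n := funext hpa
      by_cases hl : 0 < p.leadingCoeff
      · left
        rw [ea]
        exact gap_of_poly p hp hl
      · right
        have hl' : 0 < (-p).leadingCoeff := by
          have h0 : p.leadingCoeff ≠ 0 := by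
            rw [Ne, Polynomial.leadingCoeff_eq_zero]
            rintro rfl
            simp at hp
          rw [Polynomial.leadingCoeff_neg]
          omega
        have h1 := gap_of_poly (-p) (by rwa [Polynomial.natDegree_neg]) hl'
        have e : (fun n => -a n) = fun n : ℤ => (-p).eval n := by
          funext n
          rw [hpa, Polynomial.eval_neg]
        rw [e]
        exact h1
    · exact Or.inl (gap_of_tendsto a h)
    · refine Or.inr (gap_of_tendsto _ ?_)
      have h1 := tendsto_neg_atBot_atTop.comp h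
      refine h1.congr (fun n => ?_)
      show -(a (n + 1) - a n) = -a (n + 1) - -a n
      ring
  rcases h with h | h
  · obtain ⟨N, hN⟩ := side_gap a h
    exact ⟨N, hN N le_rfl⟩
  · obtain ⟨N, hN⟩ := side_neg a h
    exact ⟨N, hN N le_rfl⟩

/-- The space of the proof is the Cantor space. -/
def toCantor : BB ≃ₜ (ℕ → Bool) where
  toFun x := fun n => x (Nat.unpair n).1 (Nat.unpair n).2
  invFun g := fun n b => g (Nat.pair n b)
  left_inv x := by
    funext n b
    simp only [Nat.unpair_pair]
  right_inv g := by
    funext n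
    simp only [Nat.pair_unpair]
  continuous_toFun := continuous_pi fun _ => (continuous_apply _).comp (continuous_apply _)
  continuous_invFun := continuous_pi fun _ => continuous_pi fun _ => continuous_apply _

/-- **No joint recurrence, for countably many sequences at once.** Let `a i`, `i ∈ ι`, be countably
many sequences, each given by an integer polynomial of degree at least two (or, more generally,
with differences tending to `∞` or to `-∞`). There are a nonempty compact metric space `X` (which is
homeomorphic to the Cantor space) and minimal homeomorphisms `T i` of `X` such that for all `i ≠ j` no point of `X` is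
`(a i, a j)`-jointly recurrent for `(T i, T j)`; more precisely there are `ε > 0` and `N` such that,
for every `n ≥ N`, every point is moved by at least `ε` by `T i ^ a i n` or by `T j ^ a j n`. -/
theorem result (ι : Type) [Countable ι] (a : ι → ℤ → ℤ) (ha : ∀ i, Admissible (a i)) :
    ∃ (X : Type) (_ : MetricSpace X) (_ : CompactSpace X) (_ : Nonempty X) (T : ι → (X ≃ₜ X)),
      Nonempty (X ≃ₜ (ℕ → Bool)) ∧ (∀ i, IsMinimal (T i)) ∧ ∀ i j, i ≠ j →
        (∀ x : X, ¬ JointlyRecurrent (a i) (a j) (T i) (T j) x) ∧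
        ∃ ε : ℝ, 0 < ε ∧ ∃ N : ℤ, ∀ n, N ≤ n → ∀ x : X,
          ε ≤ dist ((T i ^ (a i n)) x) x ∨ ε ≤ dist ((T j ^ (a j n)) x) x := by
  obtain ⟨e, he⟩ := exists_injective_nat ι
  choose M T f hf hT hr using fun i => side (a i) (ha i)
  let mX : MetricSpace BB := TopologicalSpace.metrizableSpaceMetric BB
  set Φ : ι → (BB ≃ₜ XX) := fun i => Phi (e i) (M i) with hΦ
  set S : ι → (BB ≃ₜ BB) := fun i => ((Φ i).symm.symm.trans (T i)).trans (Φ i).symm with hS
  have hpow : ∀ i (n : ℤ) (x : BB), (S i ^ n) x = (Φ i).symm ((T i ^ n) (Φ i x)) := by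
    intro i n x
    exact homeo_conj_zpow (Φ i).symm (T i) n x
  set g : ι → BB → Bool := fun i x => f i (Φ i x) with hg
  have hgc : ∀ i, Continuous (g i) := fun i => (hf i).comp (Φ i).continuous
  have hgr : ∀ i (x : BB) (k : ℕ), g i ((S i ^ (a i ((M i + k : ℕ) : ℤ))) x) = g i x ↔
      (hh (e i) (x (M i + k))).1 = true := by
    intro i x k
    have h1 := hr i (Φ i x) k
    show f i (Φ i ((S i ^ (a i ((M i + k : ℕ) : ℤ))) x)) = f i (Φ i x) ↔ _
    rw [hpow, (Φ i).apply_symm_apply, h1]
    simp only [hΦ]
    rw [Phi_fst]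
  choose ε hε hεg using fun i => exists_eps (g i) (hgc i)
  have huni : ∀ i j, i ≠ j → ∃ δ : ℝ, 0 < δ ∧ ∃ N : ℤ, ∀ n, N ≤ n → ∀ x : BB,
      δ ≤ dist ((S i ^ (a i n)) x) x ∨ δ ≤ dist ((S j ^ (a j n)) x) x := by
    intro i j hij
    refine ⟨min (ε i) (ε j), lt_min (hε i) (hε j), (max (M i) (M j) : ℕ), fun n hn x => ?_⟩
    by_contra hcon
    push Not at hcon
    obtain ⟨c1, c2⟩ := hcon
    have hn0 : 0 ≤ n := le_trans (by positivity) hn
    obtain ⟨m, rfl⟩ := Int.eq_ofNat_of_zero_le hn0
    have hm : max (M i) (M j) ≤ m := by exact_mod_cast hn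
    obtain ⟨k1, hk1⟩ : ∃ k, m = M i + k := ⟨m - M i, by have := le_max_left (M i) (M j); omega⟩
    obtain ⟨k2, hk2⟩ : ∃ k, m = M j + k := ⟨m - M j, by have := le_max_right (M i) (M j); omega⟩
    have h1 := hεg i _ _ (lt_of_lt_of_le c1 (min_le_left _ _))
    have h2 := hεg j _ _ (lt_of_lt_of_le c2 (min_le_right _ _))
    have h3 : (hh (e i) (x m)).1 = true := by
      have := (hgr i x k1)
      rw [← hk1] at this
      exact this.1 h1
    have h4 : (hh (e j) (x m)).1 = true := by
      have := (hgr j x k2)
      rw [← hk2] at this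
      exact this.1 h2
    exact hh_disjoint (fun h => hij (he h)) _ h3 h4
  refine ⟨BB, mX, inferInstance, inferInstance, S, ⟨toCantor⟩, fun i x => ?_,
    fun i j hij => ⟨?_, huni i j hij⟩⟩
  · have h1 : (fun n : ℤ => (S i ^ n) x) = (Φ i).symm ∘ fun n : ℤ => (T i ^ n) (Φ i x) := by
      funext n
      exact hpow i n x
    rw [h1]
    exact (Φ i).symm.surjective.denseRange.comp (hT i _) (Φ i).symm.continuous
  · rintro x ⟨n, hn, h1, h2⟩
    obtain ⟨δ, hδ, N, hN⟩ := huni i j hij
    have e1 := h1.eventually (Metric.ball_mem_nhds x hδ)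
    have e2 := h2.eventually (Metric.ball_mem_nhds x hδ)
    obtain ⟨k, ⟨k1, k2⟩, k3⟩ := ((e1.and e2).and (hn.eventually_ge_atTop N)).exists
    rcases hN (n k) k3 x with h | h
    · exact absurd k1 (not_lt.2 h)
    · exact absurd k2 (not_lt.2 h)

end Pool.Agent.Results.MP_c19a8f_an.UniversalSystems
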